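import Pool.Agent.helper34.MO.SpecB

/-! Project MO (MP_0631c5_co), row mo:A2P -/

open Complex Finset

namespace Pool.Agent.MO

/-- positivity of a binary form -/
theorem A2P_form (a b m u v : ℝ) (ha : 0 < a) (h : m ^ 2 < a * b) :
    0 ≤ a * u ^ 2 + 2 * m * u * v + b * v ^ 2 ∧
    ((u ≠ 0 ∨ v ≠ 0) → 0 < a * u ^ 2 + 2 * m * u * v + b * v ^ 2) := by
  have key : a * (a * u ^ 2 + 2 * m * u * v + b * v ^ 2) = (a * u + m * v) ^ 2 + (a * b - m ^ 2) * v ^ 2 := by
    ring
  have hd : 0 < a * b - m ^ 2 := by linarith
  constructor
  · have h1 : 0 ≤ a * (a * u ^ 2 + 2 * m * u * v + b * v ^ 2) := by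
      rw [key]; positivity
    exact nonneg_of_mul_nonneg_right h1 ha
  · intro huv
    have h1 : 0 < a * (a * u ^ 2 + 2 * m * u * v + b * v ^ 2) := by
      rw [key]
      by_cases hv : v = 0
      · have hu : u ≠ 0 := by
          rcases huv with h | h
          · exact h
          · exact absurd hv h
        rw [hv]
        have : 0 < (a * u + m * 0) ^ 2 := by
          have : a * u ≠ 0 := mul_ne_zero ha.ne' hu
          rw [mul_zero, add_zero]
          positivity
        nlinarith [this]
      · have : 0 < (a * b - m ^ 2) * v ^ 2 := by positivity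
        nlinarith [sq_nonneg (a * u + m * v)]
    exact (mul_pos_iff_of_pos_left ha).1 h1

theorem A2P_sum (F : ℕ → ℕ → ℂ) (i j : ℕ) (hij : i ≠ j) (hs : F i j = F j i) (x : ℕ → ℂ) :
    (∑ a ∈ ({i, j} : Finset ℕ), ∑ b ∈ ({i, j} : Finset ℕ), (starRingEnd ℂ) (x a) * F a b * x b).re =
      ((F i i).re * (x i).re ^ 2 + 2 * (F i j).re * (x i).re * (x j).re + (F j j).re * (x j).re ^ 2) +
      ((F i i).re * (x i).im ^ 2 + 2 * (F i j).re * (x i).im * (x j).im + (F j j).re * (x j).im ^ 2) := by
  rw [Finset.sum_pair hij, Finset.sum_pair hij, Finset.sum_pair hij, ← hs]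
  simp only [Complex.add_re, Complex.mul_re, Complex.mul_im, Complex.conj_re, Complex.conj_im]
  ring

theorem A2P : A2P_stmt := by
  constructor
  · intro A B m al be mu hA hP
    obtain ⟨h1, h2, h3⟩ := hA
    obtain ⟨k1, k2, k3⟩ := hP
    refine ⟨by rw [Complex.add_re]; linarith, by rw [Complex.add_re]; linarith, ?_⟩
    rw [Complex.add_re, Complex.add_re, Complex.add_re]
    generalize A.re = a at *
    generalize B.re = b at *
    generalize m.re = c at *
    generalize al.re = α at *
    generalize be.re = β at *
    generalize mu.re = μ at *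
    have h4 : 2 * c * μ ≤ a * β + α * b := by
      have h5 : c ^ 2 * μ ^ 2 ≤ (a * b) * (α * β) :=
        mul_le_mul h3.le k3 (sq_nonneg μ) (mul_pos h1 h2).le
      have h6 : (2 * c * μ) ^ 2 ≤ (a * β + α * b) ^ 2 := by
        nlinarith [sq_nonneg (a * β - α * b)]
      exact le_of_abs_le (abs_le_of_sq_le_sq h6 (by positivity))
    nlinarith
  · intro F i j hij hs
    constructor
    · intro h
      have hi : 0 < (F i i).re := by
        have := h (fun k => if k = i then 1 else 0) ⟨i, by simp, by simp⟩
        rw [A2P_sum F i j hij hs] at this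
        simpa [hij.symm] using this
      have hj : 0 < (F j j).re := by
        have := h (fun k => if k = j then 1 else 0) ⟨j, by simp, by simp⟩
        rw [A2P_sum F i j hij hs] at this
        simpa [hij] using this
      refine ⟨hi, hj, ?_⟩
      have := h (fun k => if k = i then -((F i j).re : ℂ) else ((F i i).re : ℂ)) ⟨j, by simp, by
        simp only [hij.symm, if_false]
        exact_mod_cast hi.ne'⟩
      rw [A2P_sum F i j hij hs] at this
      simp only [hij.symm, if_false, if_true, Complex.neg_re, Complex.neg_im, Complex.ofReal_re,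
        Complex.ofReal_im] at this
      have h5 : 0 < (F i i).re * ((F i i).re * (F j j).re - (F i j).re ^ 2) := by nlinarith
      have h6 := (mul_pos_iff_of_pos_left hi).1 h5
      linarith
    · rintro ⟨h1, h2, h3⟩ x hx
      rw [A2P_sum F i j hij hs]
      have e1 := A2P_form (F i i).re (F j j).re (F i j).re (x i).re (x j).re h1 h3
      have e2 := A2P_form (F i i).re (F j j).re (F i j).re (x i).im (x j).im h1 h3
      by_cases hre : (x i).re ≠ 0 ∨ (x j).re ≠ 0
      · have := e1.2 hre
        linarith [e2.1]
      · push Not at hre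
        have him : (x i).im ≠ 0 ∨ (x j).im ≠ 0 := by
          by_contra hc
          push Not at hc
          obtain ⟨k, hk, hk0⟩ := hx
          apply hk0
          rw [Finset.mem_insert, Finset.mem_singleton] at hk
          rcases hk with rfl | rfl
          · exact Complex.ext hre.1 hc.1
          · exact Complex.ext hre.2 hc.2
        have := e2.2 him
        linarith [e1.1]

end Pool.Agent.MO
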